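import Pool.Agent.R121.CycSeg

set_option autoImplicit false

/-!
# The two alternating signatures of odd size are c-Wilf-equivalent
-/

namespace Pool.Agent.Results.MP_ccaf84_co.Alternating

open Finset Pool.Agent.R121 Pool.Agent.R121.RunCount Pool.Agent.R121.CycSeg

/-- The permutation `π` of `{0, …, n-1}` is in the class of the signature `σ` (`true` for `+`, `false`
for `-`): there is a segmentation `0 = e 0 ≤ e 1 ≤ … ≤ e k = n` such that `π` is increasing on the
places `e i, …, e (i+1) - 1` if `σ i` is `true` and decreasing there if it is `false`. -/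
def InClass {n k : ℕ} (σ : Fin k → Bool) (π : Equiv.Perm (Fin n)) : Prop :=
  ∃ e : ℕ → ℕ, e 0 = 0 ∧ e k = n ∧ (∀ i < k, e i ≤ e (i + 1)) ∧
    ∀ (i : Fin k) (x y : Fin n), e i ≤ x → x < y → (y : ℕ) < e (i + 1) →
      if σ i = true then π x < π y else π y < π x

/-- A single cycle through all elements. -/
def IsNCycle {n : ℕ} (π : Equiv.Perm (Fin n)) : Prop := ∀ i j, ∃ t : ℕ, (π ^ t) i = j

/-- the signature `+-+-…` of size `k` -/
def altPlus (k : ℕ) (i : Fin k) : Bool := decide ((i : ℕ) % 2 = 0)

/-- the signature `-+-+…` of size `k` -/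
def altMinus (k : ℕ) (i : Fin k) : Bool := decide ((i : ℕ) % 2 = 1)

lemma inClass_of_le {n k : ℕ} (h : n ≤ k) (σ : Fin k → Bool) (π : Equiv.Perm (Fin n)) :
    InClass σ π := by
  refine ⟨fun i => min i n, by simp, by simp [h], ?_, ?_⟩
  · intro i _
    simp only
    omega
  · intro i x y h1 h2 h3
    have := x.2
    rw [Fin.lt_def] at h2
    simp only at h1 h3
    omega

lemma inClass_iff {n k : ℕ} (hk : 0 < k) (σ : Fin k → Bool) (π : Equiv.Perm (Fin n)) :
    InClass σ π ↔ ∃ b : Fin n → Fin k, Val (fun a => !σ a) π b := by
  constructor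
  · rintro ⟨e, e0, ek, he, h⟩
    let g : Fin n → ℕ := fun x => Nat.findGreatest (fun i => e i ≤ x) (k - 1)
    have g1 : ∀ x, g x ≤ k - 1 := fun x => Nat.findGreatest_le _
    have g2 : ∀ x, e (g x) ≤ x := fun x =>
      Nat.findGreatest_spec (P := fun i => e i ≤ x) (m := 0) (by omega) (by simp [e0])
    have g3 : ∀ x : Fin n, (x : ℕ) < e (g x + 1) := by
      intro x
      rcases Nat.lt_or_ge (g x) (k - 1) with h1 | h1
      · have := Nat.findGreatest_is_greatest (P := fun i => e i ≤ x) (n := k - 1) (k := g x + 1)
          (Nat.lt_succ_self _) (by omega)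
        omega
      · have h2 := g1 x
        have h3 : g x + 1 = k := by omega
        rw [h3, ek]
        exact x.2
    refine ⟨fun x => ⟨g x, by have := g1 x; omega⟩, ?_, ?_⟩
    · intro y z hyz
      rw [Fin.lt_def] at hyz
      have h1 := g2 y
      exact Nat.le_findGreatest (P := fun i => e i ≤ z) (g1 y) (by simp only; omega)
    · intro y z hb hyz
      simp only [Fin.mk.injEq] at hb
      have h1 := h ⟨g y, by have := g1 y; omega⟩ y z (g2 y) hyz (by
        simp only
        rw [hb]
        exact g3 z)
      simp only [Bool.not_eq_true'] at *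
      by_cases h2 : σ ⟨g y, by have := g1 y; omega⟩ = true
      · rw [if_pos h2] at h1
        rw [if_neg (by rw [h2]; simp)]
        exact h1
      · rw [if_neg h2] at h1
        rw [if_pos (by simpa using h2)]
        exact h1
  · rintro ⟨b, hb1, hb2⟩
    have hmono : ∀ y z : Fin n, y ≤ z → b y ≤ b z := by
      intro y z hyz
      rcases lt_or_eq_of_le hyz with h | h
      · exact hb1 y z h
      · rw [h]
    let e : ℕ → ℕ := fun i => (univ.filter fun x : Fin n => (b x : ℕ) < i).card
    have he : ∀ (x : Fin n) (i : ℕ), (x : ℕ) < e i ↔ (b x : ℕ) < i := by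
      intro x i
      constructor
      · intro h
        by_contra h1
        have h2 : (univ.filter fun x : Fin n => (b x : ℕ) < i) ⊆ Finset.Iio x := by
          intro z hz
          rw [mem_filter] at hz
          rw [Finset.mem_Iio]
          by_contra h3
          have h4 := hmono x z (not_lt.1 h3)
          rw [Fin.le_def] at h4
          omega
        have h3 := card_le_card h2
        rw [Fin.card_Iio] at h3
        simp only [e] at h
        omega
      · intro h
        have h2 : Finset.Iic x ⊆ (univ.filter fun x : Fin n => (b x : ℕ) < i) := by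
          intro z hz
          rw [Finset.mem_Iic] at hz
          rw [mem_filter]
          have h4 := hmono z x hz
          rw [Fin.le_def] at h4
          exact ⟨mem_univ _, by omega⟩
        have h3 := card_le_card h2
        rw [Fin.card_Iic] at h3
        simp only [e]
        omega
    refine ⟨e, ?_, ?_, ?_, ?_⟩
    · simp [e]
    · simp only [e]
      rw [filter_true_of_mem (fun x _ => (b x).2)]
      simp
    · intro i _
      apply card_le_card
      intro x hx
      rw [mem_filter] at hx ⊢
      exact ⟨mem_univ _, by omega⟩
    · intro i x y h1 h2 h3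
      rw [he] at h3
      have h4 : ¬ (x : ℕ) < e i := by omega
      rw [he] at h4
      have h5 := hb1 x y h2
      rw [Fin.le_def] at h5
      have h6 : b x = i := Fin.ext (by omega)
      have h7 : b y = i := Fin.ext (by omega)
      have h8 := hb2 x y (by rw [h6, h7]) h2
      rw [h6] at h8
      simp only at h8
      by_cases h9 : σ i = true
      · rw [if_neg (by rw [h9]; simp)] at h8
        rw [if_pos h9]
        exact h8
      · rw [if_pos (by simpa using h9)] at h8
        rw [if_neg h9]
        exact h8

/-- **Q1 of MP_ccaf84_co**: for odd `k ≥ 5` and all `n ≥ 1` the numbers of cyclic permutations in the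
two alternating classes of size `k` agree. -/
theorem result (k : ℕ) (hk : 5 ≤ k) (hodd : Odd k) (n : ℕ) (_hn : 1 ≤ n) :
    Nat.card {π : Equiv.Perm (Fin n) // IsNCycle π ∧ InClass (altPlus k) π} =
      Nat.card {π : Equiv.Perm (Fin n) // IsNCycle π ∧ InClass (altMinus k) π} := by
  classical
  rcases Nat.lt_or_ge n 3 with h3 | h3
  · have h : ∀ σ : Fin k → Bool, ∀ π : Equiv.Perm (Fin n), InClass σ π :=
      fun σ π => inClass_of_le (by omega) σ π
    simp only [h]
  · obtain ⟨m, rfl⟩ := hodd
    have e1 : ∀ π : Equiv.Perm (Fin n), InClass (altPlus (2 * m + 1)) π ↔ dr (W false π) ≤ m := by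
      intro π
      rw [inClass_iff (by omega), ← exists_val_iff false (by omega)]
      have : (fun a => !altPlus (2 * m + 1) a) = sn false := by
        funext a
        simp only [altPlus, sn, od, Bool.false_bne]
        rcases Nat.mod_two_eq_zero_or_one (a : ℕ) with h | h <;> simp [h]
      rw [this]
    have e2 : ∀ π : Equiv.Perm (Fin n), InClass (altMinus (2 * m + 1)) π ↔ dr (W true π) ≤ m := by
      intro π
      rw [inClass_iff (by omega), ← exists_val_iff true (by omega)]
      have : (fun a => !altMinus (2 * m + 1) a) = sn true := by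
        funext a
        simp only [altMinus, sn, od, Bool.true_bne]
      rw [this]
    simp only [e1, e2]
    rw [Nat.card_eq_fintype_card, Nat.card_eq_fintype_card, Fintype.card_subtype,
      Fintype.card_subtype]
    have h := runs h3 m
    unfold Cyc at h
    unfold IsNCycle
    convert h

end Pool.Agent.Results.MP_ccaf84_co.Alternating
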